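import Pool.Agent.W14.US.Stm
import Pool.Agent.H761R2.SV.Pomp

set_option autoImplicit false
open Complex MeasureTheory Filter Topology Metric Set
open scoped ContDiff

namespace Pool.Agent.W14.US

theorem int_inv_ball (r : ℝ) (hr : 0 < r) :
    ∫ w in ball (0 : ℂ) r, ‖w‖⁻¹ = 2 * Real.pi * r := by
  have h := integral_fun_norm_addHaar (volume : Measure ℂ)
    (fun y : ℝ => (Set.Iio r).indicator (fun y => y⁻¹) y)
  have e : (fun w : ℂ => (Set.Iio r).indicator (fun y => y⁻¹) ‖w‖) =
      (ball (0 : ℂ) r).indicator (fun w => ‖w‖⁻¹) := by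
    ext w
    by_cases hw : ‖w‖ < r
    · rw [indicator_of_mem (show ‖w‖ ∈ Set.Iio r from hw),
        indicator_of_mem (show w ∈ ball (0 : ℂ) r by simpa using hw)]
    · rw [indicator_of_notMem (show ‖w‖ ∉ Set.Iio r from hw),
        indicator_of_notMem (show w ∉ ball (0 : ℂ) r by simpa using hw)]
  rw [e, integral_indicator measurableSet_ball] at h
  rw [h, Complex.finrank_real_complex]
  have h2 : ∫ y in Set.Ioi (0 : ℝ), y ^ (2 - 1) • (Set.Iio r).indicator (fun y => y⁻¹) y = r := by
    have e2 : ∫ y in Set.Ioi (0 : ℝ), y ^ (2 - 1) • (Set.Iio r).indicator (fun y => y⁻¹) y =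
        ∫ y in Set.Ioi (0 : ℝ), (Set.Iio r).indicator (fun _ => (1 : ℝ)) y := by
      apply setIntegral_congr_fun measurableSet_Ioi
      intro y hy
      have hy0 : y ≠ 0 := (Set.mem_Ioi.1 hy).ne'
      by_cases hyr : y < r
      · simp [indicator_of_mem (show y ∈ Set.Iio r from hyr), hy0]
      · simp [indicator_of_notMem (show y ∉ Set.Iio r from hyr)]
    rw [e2, setIntegral_indicator measurableSet_Iio]
    rw [show Set.Ioi (0 : ℝ) ∩ Set.Iio r = Set.Ioo 0 r from rfl]
    simp [hr.le]
  rw [h2]
  have h3 : volume.real (ball (0 : ℂ) 1) = Real.pi := by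
    rw [Measure.real, Complex.volume_ball]; simp
  rw [h3]
  simp
  ring

theorem bd : S_BD := by
  intro g m a r A hg hc hA hm ha hr hgm hgA hvol z
  have hpi := Real.pi_pos
  set A' : Set ℂ := (fun w => z - w) ⁻¹' A with hA'
  have hmeas : MeasurableSet A' := by
    apply hA.preimage; fun_prop
  have hvA' : volume A' = volume A :=
    (Measure.measurePreserving_sub_left (volume : Measure ℂ) z).measure_preimage hA.nullMeasurableSet
  have hvA : volume A' ≤ ENNReal.ofReal a := hvA' ▸ hvol
  have hfin : volume A' ≠ ⊤ := ne_top_of_le_ne_top ENNReal.ofReal_ne_top hvA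
  have hreal : volume.real A' ≤ a := by
    rw [Measure.real]
    exact ENNReal.toReal_le_of_le_ofReal ha hvA
  -- dominating function
  let D : ℂ → ℝ := fun w => m * (ball (0 : ℂ) r).indicator (fun w => ‖w‖⁻¹) w +
    (m / r) * A'.indicator (fun _ => (1 : ℝ)) w
  have hD1 : Integrable (fun w : ℂ => m * (ball (0 : ℂ) r).indicator (fun w => ‖w‖⁻¹) w) :=
    ((integrable_indicator_iff measurableSet_ball).2
      (Pool.Agent.H761R2.SV.integrableOn_norm_inv r)).const_mul m
  have hD2 : Integrable (fun w : ℂ => (m / r) * A'.indicator (fun _ => (1 : ℝ)) w) := by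
    apply Integrable.const_mul
    rw [integrable_indicator_iff hmeas]
    exact integrableOn_const hfin
  have hb : ∀ w, ‖g (z - w) * w⁻¹‖ ≤ D w := by
    intro w
    rw [norm_mul, norm_inv]
    by_cases hw : w ∈ ball (0 : ℂ) r
    · have h1 : D w = m * ‖w‖⁻¹ + (m / r) * A'.indicator (fun _ => (1 : ℝ)) w := by
        simp only [D, indicator_of_mem hw]
      rw [h1]
      have h2 : 0 ≤ (m / r) * A'.indicator (fun _ => (1 : ℝ)) w := by
        apply mul_nonneg (by positivity)
        exact indicator_nonneg (fun _ _ => zero_le_one) _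
      have h3 : ‖g (z - w)‖ * ‖w‖⁻¹ ≤ m * ‖w‖⁻¹ :=
        mul_le_mul_of_nonneg_right (hgm _) (by positivity)
      linarith
    · have h1 : D w = (m / r) * A'.indicator (fun _ => (1 : ℝ)) w := by
        simp only [D, indicator_of_notMem hw]; ring
      rw [h1]
      by_cases hwA : w ∈ A'
      · rw [indicator_of_mem hwA, mul_one]
        have hw' : r ≤ ‖w‖ := by simpa using hw
        have h4 : ‖w‖⁻¹ ≤ r⁻¹ := inv_anti₀ hr hw'
        calc ‖g (z - w)‖ * ‖w‖⁻¹ ≤ m * r⁻¹ :=
              mul_le_mul (hgm _) h4 (by positivity) hm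
          _ = m / r := by rw [div_eq_mul_inv]
      · rw [indicator_of_notMem hwA]
        have : g (z - w) = 0 := hgA _ hwA
        simp [this]
  have hint : ‖∫ w, g (z - w) * w⁻¹‖ ≤ ∫ w, D w := by
    apply norm_integral_le_of_norm_le (hD1.add hD2)
    exact Eventually.of_forall hb
  have hDint : ∫ w, D w = m * (2 * Real.pi * r) + (m / r) * volume.real A' := by
    simp only [D]
    rw [integral_add hD1 hD2, integral_const_mul, integral_const_mul,
      integral_indicator measurableSet_ball, integral_indicator hmeas, int_inv_ball r hr]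
    simp
  unfold T
  rw [norm_mul, Complex.norm_real, Real.norm_of_nonneg (by positivity)]
  have h5 : (m / r) * volume.real A' ≤ (m / r) * a :=
    mul_le_mul_of_nonneg_left hreal (by positivity)
  have h6 : ‖∫ w, g (z - w) * w⁻¹‖ ≤ m * (2 * Real.pi * r) + (m / r) * a := by
    linarith [hint, hDint]
  calc 1 / Real.pi * ‖∫ w, g (z - w) * w⁻¹‖
      ≤ 1 / Real.pi * (m * (2 * Real.pi * r) + (m / r) * a) :=
        mul_le_mul_of_nonneg_left h6 (by positivity)
    _ = m * (2 * r) + (m / r) * a / Real.pi := by field_simp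
    _ ≤ m * (2 * r) + (m / r) * a := by
        have : (m / r) * a / Real.pi ≤ (m / r) * a / 1 := by
          apply div_le_div_of_nonneg_left (by positivity) one_pos
          linarith [Real.pi_gt_three]
        rw [div_one] at this
        linarith
    _ = m * (2 * r + a / r) := by ring

end Pool.Agent.W14.US
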