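import Pool.Agent.W14.US.Stm

set_option autoImplicit false
open Complex MeasureTheory Filter Topology Metric Set
open scoped ContDiff

namespace Pool.Agent.W14.US

theorem ad_db {k : ℂ → ℂ} (hk : Ad k) : Ad (db k) ∧ Ad (dd k) := by
  obtain ⟨h1, h2⟩ := hk
  have hd : ContDiff ℝ ∞ (fderiv ℝ k) := h1.fderiv_right (by simp)
  have hc : HasCompactSupport (fderiv ℝ k) := h2.fderiv ℝ
  have hs : ∀ g : ℂ → ℂ, (∀ z, fderiv ℝ k z = 0 → g z = 0) → HasCompactSupport g := by
    intro g hg
    apply HasCompactSupport.of_support_subset_isCompact hc.isCompact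
    intro w hw
    by_contra hn
    exact hw (hg w (image_eq_zero_of_notMem_tsupport hn))
  have e1 : ContDiff ℝ ∞ (fun z => fderiv ℝ k z 1) := hd.clm_apply contDiff_const
  have e2 : ContDiff ℝ ∞ (fun z => fderiv ℝ k z I) := hd.clm_apply contDiff_const
  refine ⟨⟨?_, hs _ ?_⟩, ⟨?_, hs _ ?_⟩⟩
  · unfold db; exact (e1.add (contDiff_const.mul e2)).div_const _
  · intro z hz; simp [db, hz]
  · unfold dd; exact (e1.sub (contDiff_const.mul e2)).div_const _
  · intro z hz; simp [dd, hz]

theorem hasF_co (b : Bool) (h : ℝ → ℝ) (hh : ContDiff ℝ ∞ h) (z : ℂ) :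
    HasFDerivAt (fun z => ((h (co b z) : ℝ) : ℂ))
      (Complex.ofRealCLM.comp ((deriv h (co b z)) • (if b then Complex.imCLM else Complex.reCLM))) z := by
  have h1 : HasDerivAt h (deriv h (co b z)) (co b z) :=
    (hh.differentiable (by simp) _).hasDerivAt
  have h2 : HasFDerivAt (co b) (if b then Complex.imCLM else Complex.reCLM) z := by
    cases b
    · exact Complex.reCLM.hasFDerivAt
    · exact Complex.imCLM.hasFDerivAt
  have h3 := h1.comp_hasFDerivAt z h2
  exact Complex.ofRealCLM.hasFDerivAt.comp z h3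

theorem calc' : S_CALC := by
  intro b h k hh hk
  have hco : ContDiff ℝ ∞ (co b) := by
    cases b
    · exact Complex.reCLM.contDiff
    · exact Complex.imCLM.contDiff
  have hH : ContDiff ℝ ∞ (fun z => ((h (co b z) : ℝ) : ℂ)) :=
    Complex.ofRealCLM.contDiff.comp (hh.comp hco)
  refine ⟨(ad_db hk).1, (ad_db hk).2, ⟨hk.1.mul hH, hk.2.mul_right⟩, fun z => ?_, fun z => ?_⟩
  · have h1 := (hk.1.differentiable (by simp) z).hasFDerivAt.mul (hasF_co b h hh z)
    have h2 : HasFDerivAt (fun z => k z * ((h (co b z) : ℝ) : ℂ)) _ z := h1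
    unfold db
    rw [h2.fderiv]
    cases b
    · simp; ring
    · simp; ring
  · have h1 := (hk.1.differentiable (by simp) z).hasFDerivAt.mul (hasF_co b h hh z)
    have h2 : HasFDerivAt (fun z => k z * ((h (co b z) : ℝ) : ℂ)) _ z := h1
    unfold dd
    rw [h2.fderiv]
    cases b
    · simp; ring
    · simp; ring

end Pool.Agent.W14.US
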