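import Pool.Agent.W14.US.Stm

set_option autoImplicit false
open Complex MeasureTheory Filter Topology Metric Set
open scoped ContDiff

namespace Pool.Agent.W14.US

theorem cut : S_CUT := by
  intro c s hs
  let p : ContDiffBump c := ⟨s / 2, s, by linarith, by linarith⟩
  have hpc : Continuous (fun x => p x) := p.continuous
  let h : ℝ → ℝ := fun x => ∫ t in (c - s)..x, p t
  have hd : ∀ x, HasDerivAt h (p x) x := fun x =>
    intervalIntegral.integral_hasDerivAt_right (hpc.intervalIntegrable _ _)
      (hpc.stronglyMeasurableAtFilter _ _) hpc.continuousAt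
  have hderiv : deriv h = fun x => p x := funext fun x => (hd x).deriv
  have hmono : Monotone h := by
    apply monotone_of_deriv_nonneg (fun x => (hd x).differentiableAt)
    intro x; rw [hderiv]; exact p.nonneg
  have h0 : ∀ x, x ≤ c - s → h x = 0 := by
    intro x hx
    have : h x = ∫ t in (c - s)..x, (0 : ℝ) := by
      apply intervalIntegral.integral_congr
      intro t ht
      rw [uIcc_of_ge hx] at ht
      apply p.zero_of_le_dist
      rw [Real.dist_eq]
      have : t - c ≤ -s := by have := ht.2; linarith
      calc s ≤ -(t - c) := by linarith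
        _ ≤ |t - c| := neg_le_abs _
    rw [this]; simp
  have h2 : ∀ x, h x ≤ 2 * s := by
    intro x
    by_cases hx : x ≤ c + s
    · calc h x ≤ h (c + s) := hmono hx
        _ ≤ ∫ t in (c - s)..(c + s), (1 : ℝ) := by
          apply intervalIntegral.integral_mono_on (by linarith) (hpc.intervalIntegrable _ _)
            (by simp)
          intro t _; exact p.le_one
        _ = 2 * s := by simp; ring
    · push Not at hx
      have e : h x = h (c + s) + ∫ t in (c + s)..x, p t := by
        simp only [h]
        rw [intervalIntegral.integral_add_adjacent_intervals (hpc.intervalIntegrable _ _)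
          (hpc.intervalIntegrable _ _)]
      have e2 : ∫ t in (c + s)..x, p t = ∫ t in (c + s)..x, (0 : ℝ) := by
        apply intervalIntegral.integral_congr
        intro t ht
        rw [uIcc_of_le hx.le] at ht
        apply p.zero_of_le_dist
        rw [Real.dist_eq]
        calc s ≤ t - c := by have := ht.1; linarith
          _ ≤ |t - c| := le_abs_self _
      rw [e, e2]
      have : h (c + s) ≤ ∫ t in (c - s)..(c + s), (1 : ℝ) := by
          apply intervalIntegral.integral_mono_on (by linarith) (hpc.intervalIntegrable _ _)
            (by simp)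
          intro t _; exact p.le_one
      have h3 : ∫ t in (c - s)..(c + s), (1 : ℝ) = 2 * s := by simp; ring
      rw [h3] at this
      simpa using this
  refine ⟨h, ?_, fun x => ⟨?_, h2 x⟩, fun x => ?_, fun x hx => ?_, fun x hx => ?_⟩
  · rw [contDiff_infty_iff_deriv]
    refine ⟨fun x => (hd x).differentiableAt, ?_⟩
    rw [hderiv]; exact p.contDiff
  · by_cases hx : x ≤ c - s
    · rw [h0 x hx]
    · push Not at hx
      rw [← h0 (c - s) le_rfl]; exact hmono hx.le
  · rw [hderiv]; exact ⟨p.nonneg, p.le_one⟩
  · rw [hderiv]
    exact p.one_of_mem_closedBall (by rw [mem_closedBall, Real.dist_eq]; exact hx)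
  · rw [hderiv]
    exact p.zero_of_le_dist (by rw [Real.dist_eq]; exact hx)

end Pool.Agent.W14.US
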