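import Pool.Agent.W14.US.Stm
import Pool.Agent.H761R2.SV.Pomp

set_option autoImplicit false
open Complex MeasureTheory Filter Topology Metric Set
open scoped ContDiff

namespace Pool.Agent.W14.US

theorem integrable_T {g : ℂ → ℂ} (hg : Continuous g) (hc : HasCompactSupport g) (z : ℂ) :
    Integrable (fun w => g (z - w) * w⁻¹) := by
  have h := (Pool.Agent.H761R2.SV.integrable_mul_cauchy hg hc z).comp_sub_left z
  simpa using h

theorem lin : S_LIN := by
  intro f g hf hfc hg hgc a b z
  unfold T
  have h1 := (integrable_T hf hfc z).const_mul a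
  have h2 := (integrable_T hg hgc z).const_mul b
  have e : ∀ w : ℂ, (a * f (z - w) + b * g (z - w)) * w⁻¹ =
      a * (f (z - w) * w⁻¹) + b * (g (z - w) * w⁻¹) := by intro w; ring
  simp only [e]
  rw [integral_add h1 h2, integral_const_mul, integral_const_mul]
  ring

theorem cr : S_CR := by
  intro F hF
  have key : ∀ z v : ℂ, fderiv ℝ F z v = dd F z * v + db F z * (starRingEnd ℂ) v := by
    intro z v
    have hv : v = v.re • (1 : ℂ) + v.im • (I : ℂ) := by
      simp [Complex.re_add_im]
    have h1 : fderiv ℝ F z v = v.re • fderiv ℝ F z 1 + v.im • fderiv ℝ F z I := by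
      conv_lhs => rw [hv]
      rw [map_add, map_smul, map_smul]
    rw [h1]
    have h2 : (starRingEnd ℂ) v = (v.re : ℂ) - v.im * I := by
      apply Complex.ext <;> simp
    have h3 : v = (v.re : ℂ) + v.im * I := (Complex.re_add_im v).symm
    rw [h2]
    unfold dd db
    simp only [Complex.real_smul]
    conv_rhs => rw [h3]
    simp only [Complex.add_re, Complex.ofReal_re, Complex.mul_re, Complex.I_re, Complex.I_im,
      Complex.add_im, Complex.ofReal_im, Complex.mul_im]
    ring_nf
    simp only [Complex.I_sq]
    ring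
  refine ⟨fun z => ?_, fun z hz => ?_⟩
  · refine ContinuousLinearMap.opNorm_le_bound _ (by positivity) fun v => ?_
    rw [key]
    calc ‖dd F z * v + db F z * (starRingEnd ℂ) v‖
        ≤ ‖dd F z * v‖ + ‖db F z * (starRingEnd ℂ) v‖ := norm_add_le _ _
      _ = (‖dd F z‖ + ‖db F z‖) * ‖v‖ := by
        rw [norm_mul, norm_mul, Complex.norm_conj]; ring
  · have h := (hF z).hasFDerivAt
    have h2 : HasFDerivAt F ((ContinuousLinearMap.toSpanSingleton ℂ (dd F z)) : ℂ →L[ℂ] ℂ) z := by
      apply hasFDerivAt_of_restrictScalars ℝ h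
      ext v
      simp [key, hz, mul_comm]
    exact h2.differentiableAt

end Pool.Agent.W14.US
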