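import Pool.Agent.W14.US.Stm

set_option autoImplicit false
open Complex MeasureTheory Filter Topology Metric Set
open scoped ContDiff

namespace Pool.Agent.W14.US

theorem vol_ball_le (R : ℝ) (hR : 0 ≤ R) :
    volume (closedBall (0 : ℂ) R) ≤ ENNReal.ofReal (4 * R ^ 2) := by
  rw [Complex.volume_closedBall, ← ENNReal.ofReal_pow hR]
  have h : (NNReal.pi : ENNReal) ≤ ENNReal.ofReal 4 := by
    rw [← ENNReal.ofReal_coe_nnreal]
    apply ENNReal.ofReal_le_ofReal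
    rw [NNReal.coe_real_pi]; exact Real.pi_le_four
  calc ENNReal.ofReal (R ^ 2) * (NNReal.pi : ENNReal)
      ≤ ENNReal.ofReal (R ^ 2) * ENNReal.ofReal 4 := by gcongr
    _ = ENNReal.ofReal (4 * R ^ 2) := by
      rw [← ENNReal.ofReal_mul (by positivity)]; congr 1; ring

theorem ad_bound {g : ℂ → ℂ} (hg : Ad g) :
    ∃ R M : ℝ, 1 ≤ R ∧ 1 ≤ M ∧ (∀ z, ‖g z‖ ≤ M) ∧ ∀ z, R < ‖z‖ → g z = 0 := by
  obtain ⟨M, hM⟩ := hg.2.exists_bound_of_continuous hg.1.continuous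
  obtain ⟨R, hR⟩ := (hg.2.isCompact.isBounded).subset_closedBall (0 : ℂ)
  refine ⟨max 1 R, max 1 M, le_max_left _ _, le_max_left _ _,
    fun z => (hM z).trans (le_max_right _ _), fun z hz => ?_⟩
  apply image_eq_zero_of_notMem_tsupport
  intro hmem
  have := hR hmem
  rw [mem_closedBall_zero_iff] at this
  exact absurd ((le_max_right 1 R).trans_lt hz) (not_lt.2 this)

theorem dd_lin {f g : ℂ → ℂ} {z : ℂ} (hf : DifferentiableAt ℝ f z) (hg : DifferentiableAt ℝ g z)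
    (a b : ℂ) : dd (fun w => a * f w + b * g w) z = a * dd f z + b * dd g z := by
  unfold dd
  rw [fderiv_fun_add (hf.const_mul a) (hg.const_mul b), fderiv_const_mul hf a,
    fderiv_const_mul hg b]
  simp
  ring

theorem ad_lin {f g : ℂ → ℂ} (hf : Ad f) (hg : Ad g) (a b : ℂ) :
    Ad (fun w => a * f w + b * g w) := by
  refine ⟨(contDiff_const.mul hf.1).add (contDiff_const.mul hg.1), ?_⟩
  exact (hf.2.mul_left (f := fun _ => a)).add (hg.2.mul_left (f := fun _ => b))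

theorem step' (hDER : S_DER) (hLIN : S_LIN) (hBD : S_BD) (hSTRIP : S_STRIP) (hCUT : S_CUT)
    (hCALC : S_CALC) : S_STEP := by
  intro k B ε c b hk hε hB
  have hco : Continuous (co b) := by
    cases b
    · exact Complex.continuous_re
    · exact Complex.continuous_im
  obtain ⟨hdbk, hddk, -, -, -⟩ := hCALC b (fun _ => 0) k contDiff_const hk
  obtain ⟨-, hddbk, -, -, -⟩ := hCALC b (fun _ => 0) (db k) contDiff_const hdbk
  obtain ⟨R1, M1, hR1, hM1, hb1, hz1⟩ := ad_bound hk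
  obtain ⟨R2, M2, hR2, hM2, hb2, hz2⟩ := ad_bound hdbk
  obtain ⟨R3, M3, hR3, hM3, hb3, hz3⟩ := ad_bound hddk
  obtain ⟨R4, M4, hR4, hM4, hb4, hz4⟩ := ad_bound hddbk
  obtain ⟨R, hRR1, hRR2, hRR4⟩ : ∃ R : ℝ, R1 ≤ R ∧ R2 ≤ R ∧ R4 ≤ R :=
    ⟨R1 + R2 + R4, by linarith, by linarith, by linarith⟩
  obtain ⟨M, hMM1, hMM2, hMM3, hMM4⟩ : ∃ M : ℝ, M1 ≤ M ∧ M2 ≤ M ∧ M3 ≤ M ∧ M4 ≤ M :=
    ⟨M1 + M2 + M3 + M4, by linarith, by linarith, by linarith, by linarith⟩
  have hR : 1 ≤ R := hR1.trans hRR1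
  have hM : 1 ≤ M := hM1.trans hMM1
  -- the constants
  set r : ℝ := ε / (16 * M) with hr
  have hrpos : 0 < r := by positivity
  obtain ⟨s, hs, hs1, hs2⟩ : ∃ s : ℝ, 0 < s ∧ s ≤ ε / (16 * M * (3 + 4 * R ^ 2)) ∧
      s ≤ ε ^ 2 / (512 * M ^ 2 * R) :=
    ⟨min (ε / (16 * M * (3 + 4 * R ^ 2))) (ε ^ 2 / (512 * M ^ 2 * R)),
      lt_min (by positivity) (by positivity), min_le_left _ _, min_le_right _ _⟩
  obtain ⟨h, hh, hh1, hh2, hh3, hh4⟩ := hCUT c s hs
  have hh' : ContDiff ℝ ∞ (deriv h) := (contDiff_infty_iff_deriv.1 hh).2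
  set th : ℂ := if b then I / 2 else 1 / 2 with hth
  set th' : ℂ := if b then -I / 2 else 1 / 2 with hth'
  have nth : ‖th‖ = 1 / 2 := by
    rw [hth]; cases b <;> simp
  have nth' : ‖th'‖ = 1 / 2 := by
    rw [hth']; cases b <;> simp
  have th0 : th ≠ 0 := by
    intro h0; rw [h0] at nth; norm_num at nth
  obtain ⟨-, -, hG, hGdb, hGdd⟩ := hCALC b h k hh hk
  obtain ⟨-, -, hK, -, -⟩ := hCALC b (deriv h) k hh' hk
  obtain ⟨-, -, hU, -, hUdd⟩ := hCALC b h (db k) hh hdbk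
  obtain ⟨-, -, hV, -, -⟩ := hCALC b h (dd (db k)) hh hddbk
  obtain ⟨-, -, hW, -, -⟩ := hCALC b (deriv h) (db k) hh' hdbk
  set G : ℂ → ℂ := fun z => k z * ((h (co b z) : ℝ) : ℂ) with hGdef
  set K : ℂ → ℂ := fun z => k z * ((deriv h (co b z) : ℝ) : ℂ) with hKdef
  set U : ℂ → ℂ := fun z => db k z * ((h (co b z) : ℝ) : ℂ) with hUdef
  set V : ℂ → ℂ := fun z => dd (db k) z * ((h (co b z) : ℝ) : ℂ) with hVdef
  set W : ℂ → ℂ := fun z => db k z * ((deriv h (co b z) : ℝ) : ℂ) with hWdef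
  -- (1)
  have e1 : ∀ z, T K z = th⁻¹ * G z + (-th⁻¹) * T U z := by
    intro z
    have h1 : db G = fun w => 1 * U w + th * K w := by
      funext w
      rw [hGdb w]
      simp only [hUdef, hKdef]
      ring
    have h2 := (hDER G hG).2 z
    have h3 : T (db G) z = G z := h2.1
    rw [h1, hLIN U K hU.1.continuous hU.2 hK.1.continuous hK.2 1 th z] at h3
    have h4 : T K z = th⁻¹ * (th * T K z) := by field_simp
    rw [h4, ← h3]
    field_simp
    ring
  -- (2)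
  have e2 : ∀ z, T (dd K) z = th⁻¹ * dd G z + (-th⁻¹) * T (dd U) z := by
    intro z
    have h1 : dd (T K) z = T (dd K) z := ((hDER K hK).2 z).2.2
    have h2 : dd (T U) z = T (dd U) z := ((hDER U hU).2 z).2.2
    have h3 : T K = fun z => th⁻¹ * G z + (-th⁻¹) * T U z := funext e1
    rw [← h1, h3, dd_lin (hG.1.differentiable (by simp) z) ((hDER U hU).1 z), h2]
  have e3 : ∀ z, T (dd U) z = 1 * T V z + th' * T W z := by
    intro z
    have h1 : dd U = fun w => 1 * V w + th' * W w := by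
      funext w
      rw [hUdd w]
      simp only [hVdef, hWdef]
      ring
    rw [h1, hLIN V W hV.1.continuous hV.2 hW.1.continuous hW.2 1 th' z]
  -- bounds for the pieces
  have habs : ∀ x, ‖((h x : ℝ) : ℂ)‖ ≤ 2 * s := by
    intro x; rw [Complex.norm_real, Real.norm_of_nonneg (hh1 x).1]; exact (hh1 x).2
  have habs' : ∀ x, ‖((deriv h x : ℝ) : ℂ)‖ ≤ 1 := by
    intro x; rw [Complex.norm_real, Real.norm_of_nonneg (hh2 x).1]; exact (hh2 x).2
  have bdT : ∀ (u : ℂ → ℂ), Ad (fun z => u z * ((h (co b z) : ℝ) : ℂ)) → (∀ z, ‖u z‖ ≤ M) →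
      (∀ z, R < ‖z‖ → u z = 0) → ∀ z, ‖T (fun z => u z * ((h (co b z) : ℝ) : ℂ)) z‖ ≤
        2 * s * M * (2 + 4 * R ^ 2) := by
    intro u hu hu1 hu2 z
    have := hBD (fun z => u z * ((h (co b z) : ℝ) : ℂ)) (2 * s * M) (4 * R ^ 2) 1
      (closedBall 0 R) hu.1.continuous hu.2 measurableSet_closedBall (by positivity) (by positivity)
      one_pos ?_ ?_ (vol_ball_le R (by linarith)) z
    · simpa using this
    · intro w
      rw [norm_mul]
      calc ‖u w‖ * ‖((h (co b w) : ℝ) : ℂ)‖ ≤ M * (2 * s) :=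
            mul_le_mul (hu1 w) (habs _) (norm_nonneg _) (by linarith)
        _ = 2 * s * M := by ring
    · intro w hw
      rw [mem_closedBall_zero_iff, not_le] at hw
      simp [hu2 w hw]
  have bU : ∀ z, ‖T U z‖ ≤ 2 * s * M * (2 + 4 * R ^ 2) :=
    bdT (db k) hU (fun z => (hb2 z).trans hMM2) fun z hz => hz2 z (hRR2.trans_lt hz)
  have bV : ∀ z, ‖T V z‖ ≤ 2 * s * M * (2 + 4 * R ^ 2) :=
    bdT (dd (db k)) hV (fun z => (hb4 z).trans hMM4) fun z hz => hz4 z (hRR4.trans_lt hz)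
  have bW : ∀ z, ‖T W z‖ ≤ M * (2 * r + 4 * s * R / r) := by
    intro z
    refine hBD W M (4 * s * R) r {w : ℂ | |co b w - c| ≤ s ∧ ‖w‖ ≤ R} hW.1.continuous hW.2
      ?_ (by linarith) (by positivity) hrpos ?_ ?_ (hSTRIP b c s R hs.le (by linarith)) z
    · apply IsClosed.measurableSet
      apply IsClosed.inter
      · exact isClosed_le ((hco.sub continuous_const).abs) continuous_const
      · exact isClosed_le continuous_norm continuous_const
    · intro w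
      rw [norm_mul]
      calc ‖db k w‖ * ‖((deriv h (co b w) : ℝ) : ℂ)‖ ≤ M * 1 :=
            mul_le_mul ((hb2 w).trans hMM2) (habs' _) (norm_nonneg _) (by linarith)
        _ = M := by ring
    · intro w hw
      by_cases h1 : |co b w - c| ≤ s
      · have h2 : R < ‖w‖ := by
          by_contra h3; push Not at h3; exact hw ⟨h1, h3⟩
        simp only [hWdef]
        rw [hz2 w (hRR2.trans_lt h2), zero_mul]
      · push Not at h1
        simp only [hWdef]
        rw [hh4 _ h1.le]; simp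
  have bG : ∀ z, ‖G z‖ ≤ 2 * s * M := by
    intro z
    rw [norm_mul]
    calc ‖k z‖ * ‖((h (co b z) : ℝ) : ℂ)‖ ≤ M * (2 * s) :=
          mul_le_mul ((hb1 z).trans hMM1) (habs _) (norm_nonneg _) (by linarith)
      _ = 2 * s * M := by ring
  -- numerics
  have num1 : 4 * s * M * (3 + 4 * R ^ 2) ≤ ε / 4 := by
    have : s * (16 * M * (3 + 4 * R ^ 2)) ≤ ε := by
      rwa [le_div_iff₀ (by positivity)] at hs1
    linarith
  have num2 : 4 * M * r = ε / 4 := by rw [hr]; field_simp; norm_num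
  have num3 : 2 * M * (4 * s * R / r) ≤ ε / 4 := by
    have h1 : s * (512 * M ^ 2 * R) ≤ ε ^ 2 := by
      rwa [le_div_iff₀ (by positivity)] at hs2
    have h2 : 2 * M * (4 * s * R / r) = 128 * M ^ 2 * R * s / ε := by
      rw [hr]; field_simp; norm_num
    rw [h2, div_le_iff₀ hε]
    nlinarith
  -- the new function
  refine ⟨fun z => 1 * k z + (-1) * K z, ad_lin hk hK 1 (-1), ?_, ⟨s / 2, by positivity, ?_⟩, ?_, ?_⟩
  · intro z hz
    simp [hKdef, hz]
  · intro z hz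
    simp only [hKdef]
    rw [hh3 _ hz.le]; simp
  · intro z
    rw [hLIN k K hk.1.continuous hk.2 hK.1.continuous hK.2 1 (-1) z, e1 z]
    have h1 : 1 * T k z + -1 * (th⁻¹ * G z + -th⁻¹ * T U z) - T k z =
        -(th⁻¹ * G z) + th⁻¹ * T U z := by ring
    rw [h1]
    have h2 : ‖th⁻¹‖ = 2 := by rw [norm_inv, nth]; norm_num
    calc ‖-(th⁻¹ * G z) + th⁻¹ * T U z‖ ≤ ‖-(th⁻¹ * G z)‖ + ‖th⁻¹ * T U z‖ := norm_add_le _ _
      _ = 2 * ‖G z‖ + 2 * ‖T U z‖ := by rw [norm_neg, norm_mul th⁻¹ (G z), norm_mul th⁻¹ (T U z), h2]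
      _ ≤ 2 * (2 * s * M) + 2 * (2 * s * M * (2 + 4 * R ^ 2)) := by
        have := bG z; have := bU z; linarith
      _ = 4 * s * M * (3 + 4 * R ^ 2) := by ring
      _ ≤ ε := by linarith
  · intro z
    have hKd : Ad K := hK
    obtain ⟨-, hddK, -, -, -⟩ := hCALC b (fun _ => 0) K contDiff_const hK
    have h0 : dd (fun z => 1 * k z + (-1) * K z) = fun z => 1 * dd k z + (-1) * dd K z := by
      funext w
      rw [dd_lin (hk.1.differentiable (by simp) w) (hK.1.differentiable (by simp) w)]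
    rw [h0, hLIN (dd k) (dd K) hddk.1.continuous hddk.2 hddK.1.continuous hddK.2 1 (-1) z, e2 z,
      e3 z, hGdd z]
    have h2 : ‖th⁻¹‖ = 2 := by rw [norm_inv, nth]; norm_num
    set x : ℝ := deriv h (co b z) with hx
    have hx0 : 0 ≤ x := (hh2 _).1
    have hx1 : x ≤ 1 := (hh2 _).2
    have h3 : 1 * T (dd k) z + -1 * (th⁻¹ * (dd k z * ((h (co b z) : ℝ) : ℂ) +
        k z * (x : ℂ) * th') + -th⁻¹ * (1 * T V z + th' * T W z)) =
        T (dd k) z + (-(th⁻¹ * (k z * (x : ℂ) * th'))) +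
        (-(th⁻¹ * (dd k z * ((h (co b z) : ℝ) : ℂ)))) + th⁻¹ * T V z + th⁻¹ * (th' * T W z) := by
      ring
    rw [h3]
    have n1 : ‖-(th⁻¹ * (k z * (x : ℂ) * th'))‖ = ‖k z‖ * x := by
      rw [norm_neg, norm_mul, norm_mul, norm_mul, h2, nth', Complex.norm_real,
        Real.norm_of_nonneg hx0]
      ring
    have n2 : ‖-(th⁻¹ * (dd k z * ((h (co b z) : ℝ) : ℂ)))‖ ≤ 2 * (2 * s * M) := by
      rw [norm_neg, norm_mul, norm_mul, h2]
      have : ‖dd k z‖ * ‖((h (co b z) : ℝ) : ℂ)‖ ≤ M * (2 * s) :=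
          mul_le_mul ((hb3 z).trans hMM3) (habs _) (norm_nonneg _) (by linarith)
      linarith
    have n3 : ‖th⁻¹ * T V z‖ ≤ 2 * (2 * s * M * (2 + 4 * R ^ 2)) := by
      rw [norm_mul, h2]; have := bV z; linarith
    have n4 : ‖th⁻¹ * (th' * T W z)‖ ≤ M * (2 * r + 4 * s * R / r) := by
      rw [norm_mul, norm_mul, h2, nth']; have := bW z; linarith
    have n5 : ‖1 * k z + -1 * K z‖ = ‖k z‖ * (1 - x) := by
      have : 1 * k z + -1 * K z = k z * ((1 - x : ℝ) : ℂ) := by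
        simp only [hKdef, hx]; push_cast; ring
      rw [this, norm_mul, Complex.norm_real, Real.norm_of_nonneg (by linarith)]
    rw [n5]
    have t1 := norm_add_le (T (dd k) z + (-(th⁻¹ * (k z * (x : ℂ) * th'))) +
        (-(th⁻¹ * (dd k z * ((h (co b z) : ℝ) : ℂ)))) + th⁻¹ * T V z) (th⁻¹ * (th' * T W z))
    have t2 := norm_add_le (T (dd k) z + (-(th⁻¹ * (k z * (x : ℂ) * th'))) +
        (-(th⁻¹ * (dd k z * ((h (co b z) : ℝ) : ℂ))))) (th⁻¹ * T V z)
    have t3 := norm_add_le (T (dd k) z + (-(th⁻¹ * (k z * (x : ℂ) * th'))))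
        (-(th⁻¹ * (dd k z * ((h (co b z) : ℝ) : ℂ))))
    have t4 := norm_add_le (T (dd k) z) (-(th⁻¹ * (k z * (x : ℂ) * th')))
    have t5 := hB z
    have t6 : ‖k z‖ * (1 - x) = ‖k z‖ - ‖k z‖ * x := by ring
    have t7 : 2 * (2 * s * M) + 2 * (2 * s * M * (2 + 4 * R ^ 2)) = 4 * s * M * (3 + 4 * R ^ 2) := by
      ring
    have t8 : M * (2 * r + 4 * s * R / r) ≤ 4 * M * r + 2 * M * (4 * s * R / r) := by
      have a1 : 0 ≤ M * r := by positivity
      have a2 : 0 ≤ M * (4 * s * R / r) := by positivity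
      nlinarith
    linarith

end Pool.Agent.W14.US
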