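import Pool.Agent.W14.US.Stm

set_option autoImplicit false
open Complex MeasureTheory Filter Topology Metric Set
open scoped ContDiff

namespace Pool.Agent.W14.US

theorem vol_rect (a b c d : ℝ) (h1 : a ≤ b) (h2 : c ≤ d) :
    volume {w : ℂ | (a ≤ w.re ∧ w.re ≤ b) ∧ (c ≤ w.im ∧ w.im ≤ d)} =
      ENNReal.ofReal ((b - a) * (d - c)) := by
  have e : {w : ℂ | (a ≤ w.re ∧ w.re ≤ b) ∧ (c ≤ w.im ∧ w.im ≤ d)} =
      Complex.measurableEquivRealProd ⁻¹' (Icc a b ×ˢ Icc c d) := by
    ext w; simp [Complex.measurableEquivRealProd_apply]; tauto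
  rw [e, Complex.volume_preserving_equiv_real_prod.measure_preimage
    (measurableSet_Icc.prod measurableSet_Icc).nullMeasurableSet, Measure.volume_eq_prod,
    Measure.prod_prod, Real.volume_Icc, Real.volume_Icc,
    ← ENNReal.ofReal_mul (by linarith)]

theorem strip : S_STRIP := by
  intro b c s R hs hR
  cases b
  · refine (measure_mono (t := {w : ℂ | (c - s ≤ w.re ∧ w.re ≤ c + s) ∧ (-R ≤ w.im ∧ w.im ≤ R)})
      ?_).trans ?_
    · rintro w ⟨h1, h2⟩
      have h1' : |w.re - c| ≤ s := h1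
      have h3 := (Complex.abs_im_le_norm w).trans h2
      rw [abs_le] at h1' h3
      exact ⟨⟨by linarith, by linarith⟩, ⟨by linarith, by linarith⟩⟩
    · rw [vol_rect _ _ _ _ (by linarith) (by linarith)]
      apply le_of_eq; congr 1; ring
  · refine (measure_mono (t := {w : ℂ | (-R ≤ w.re ∧ w.re ≤ R) ∧ (c - s ≤ w.im ∧ w.im ≤ c + s)})
      ?_).trans ?_
    · rintro w ⟨h1, h2⟩
      have h1' : |w.im - c| ≤ s := h1
      have h3 := (Complex.abs_re_le_norm w).trans h2
      rw [abs_le] at h1' h3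
      exact ⟨⟨by linarith, by linarith⟩, ⟨by linarith, by linarith⟩⟩
    · rw [vol_rect _ _ _ _ (by linarith) (by linarith)]
      apply le_of_eq; congr 1; ring

end Pool.Agent.W14.US
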