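import Mathlib

/-!
# A Lipschitz function holomorphic off a totally disconnected set (MP_e53853_an)

Definitions and the statements (`S_...`) of the steps.  `T` is the Cauchy transform; we build
`k_n = k_0 * ∏ (1 - h_j'(re or im))`, cutting out thin strips around the lines `re z = q`, `im z = q`
(`q` rational); `F_n = T k_n` satisfies `∂̄ F_n = k_n`, and `|∂ F_n| + |∂̄ F_n|` does not increase by more
than `ε_n`.  The limit `F` is Lipschitz, holomorphic off a totally disconnected set, not constant.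
-/

set_option autoImplicit false
open Complex MeasureTheory
open scoped ContDiff

namespace Pool.Agent.W14.US

/-- `∂̄ f`. -/
noncomputable def db (f : ℂ → ℂ) (z : ℂ) : ℂ := (fderiv ℝ f z 1 + I * fderiv ℝ f z I) / 2

/-- `∂ f`. -/
noncomputable def dd (f : ℂ → ℂ) (z : ℂ) : ℂ := (fderiv ℝ f z 1 - I * fderiv ℝ f z I) / 2

/-- The Cauchy transform. -/
noncomputable def T (g : ℂ → ℂ) (z : ℂ) : ℂ := (1 / Real.pi : ℝ) * ∫ w, g (z - w) * w⁻¹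

/-- Smooth and compactly supported. -/
def Ad (g : ℂ → ℂ) : Prop := ContDiff ℝ ∞ g ∧ HasCompactSupport g

/-- Real or imaginary part. -/
def co (b : Bool) (z : ℂ) : ℝ := if b then z.im else z.re

/-- Derivatives of the Cauchy transform, and the Cauchy-Pompeiu formula. -/
def S_DER : Prop := ∀ g : ℂ → ℂ, Ad g → Differentiable ℝ (T g) ∧
  ∀ z, T (db g) z = g z ∧ db (T g) z = g z ∧ dd (T g) z = T (dd g) z

/-- Linearity. -/
def S_LIN : Prop := ∀ f g : ℂ → ℂ, Continuous f → HasCompactSupport f → Continuous g →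
  HasCompactSupport g → ∀ (a b z : ℂ), T (fun w => a * f w + b * g w) z = a * T f z + b * T g z

/-- Bound. -/
def S_BD : Prop := ∀ (g : ℂ → ℂ) (m a r : ℝ) (A : Set ℂ), Continuous g → HasCompactSupport g →
  MeasurableSet A → 0 ≤ m → 0 ≤ a → 0 < r → (∀ w, ‖g w‖ ≤ m) → (∀ w, w ∉ A → g w = 0) →
  volume A ≤ ENNReal.ofReal a → ∀ z, ‖T g z‖ ≤ m * (2 * r + a / r)

/-- Thin strips have small area. -/
def S_STRIP : Prop := ∀ (b : Bool) (c s R : ℝ), 0 ≤ s → 0 ≤ R →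
  volume {w : ℂ | |co b w - c| ≤ s ∧ ‖w‖ ≤ R} ≤ ENNReal.ofReal (4 * s * R)

/-- The cut-off function of one variable (its derivative cuts out a strip). -/
def S_CUT : Prop := ∀ c s : ℝ, 0 < s → ∃ h : ℝ → ℝ, ContDiff ℝ ∞ h ∧
  (∀ x, 0 ≤ h x ∧ h x ≤ 2 * s) ∧ (∀ x, 0 ≤ deriv h x ∧ deriv h x ≤ 1) ∧
  (∀ x, |x - c| ≤ s / 2 → deriv h x = 1) ∧ ∀ x, s ≤ |x - c| → deriv h x = 0

/-- Calculus rules, for a product with a function of one coordinate. -/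
def S_CALC : Prop := ∀ (b : Bool) (h : ℝ → ℝ) (k : ℂ → ℂ), ContDiff ℝ ∞ h → Ad k →
  Ad (db k) ∧ Ad (dd k) ∧ Ad (fun z => k z * ((h (co b z) : ℝ) : ℂ)) ∧
  (∀ z, db (fun z => k z * ((h (co b z) : ℝ) : ℂ)) z =
    db k z * ((h (co b z) : ℝ) : ℂ) + k z * ((deriv h (co b z) : ℝ) : ℂ) * (if b then I / 2 else 1 / 2)) ∧
  ∀ z, dd (fun z => k z * ((h (co b z) : ℝ) : ℂ)) z =
    dd k z * ((h (co b z) : ℝ) : ℂ) + k z * ((deriv h (co b z) : ℝ) : ℂ) * (if b then -I / 2 else 1 / 2)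

/-- One step: cut out a strip around the line `co b z = c`. -/
def S_STEP : Prop := ∀ (k : ℂ → ℂ) (B ε c : ℝ) (b : Bool), Ad k → 0 < ε →
  (∀ z, ‖T (dd k) z‖ + ‖k z‖ ≤ B) →
  ∃ k' : ℂ → ℂ, Ad k' ∧ (∀ z, k z = 0 → k' z = 0) ∧
    (∃ s > 0, ∀ z, |co b z - c| < s → k' z = 0) ∧
    (∀ z, ‖T k' z - T k z‖ ≤ ε) ∧ ∀ z, ‖T (dd k') z‖ + ‖k' z‖ ≤ B + ε

/-- The sequence. -/
def S_ITER : Prop := ∃ (k : ℕ → ℂ → ℂ) (B : ℝ), (∀ n, Ad (k n)) ∧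
  (∀ n z, ‖T (dd (k n)) z‖ + ‖k n z‖ ≤ B) ∧
  (∀ n z, ‖T (k (n + 1)) z - T (k n) z‖ ≤ (1 / 8) * (1 / 2) ^ n) ∧
  (∀ (b : Bool) (q : ℚ), ∃ s > 0, ∃ N : ℕ, ∀ n ≥ N, ∀ z, |co b z - q| < s → k n z = 0) ∧
  T (k 0) 0 = 1 ∧ ∀ z, 2 ≤ ‖z‖ → T (k 0) z = 0

/-- The limit function. -/
def S_F : Prop := ∃ (F : ℂ → ℂ) (M : ℝ), 0 < M ∧ (∀ z w, ‖F z - F w‖ ≤ M * ‖z - w‖) ∧
  (∀ (b : Bool) (q : ℚ), ∃ s > 0, DifferentiableOn ℂ F {z | |co b z - q| < s}) ∧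
  3 / 4 ≤ ‖F 0‖ ∧ ∀ z, 2 ≤ ‖z‖ → ‖F z‖ ≤ 1 / 4

/-- A real differentiable function with `∂̄ F = 0` on an open set is holomorphic there, and
`‖D F‖ ≤ |∂F| + |∂̄F|`. -/
def S_CR : Prop := ∀ F : ℂ → ℂ, Differentiable ℝ F →
  (∀ z, ‖fderiv ℝ F z‖ ≤ ‖dd F z‖ + ‖db F z‖) ∧
  ∀ z, db F z = 0 → DifferentiableAt ℂ F z

/-- The conclusion (the frozen statement `S06499`). -/
def S_MAIN : Prop :=
    ∃ (D P : Set ℂ) (f : ℂ → ℂ),
      IsOpen D ∧ IsConnected D ∧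
      P ⊆ D ∧ P.Nonempty ∧ Perfect P ∧ IsTotallyDisconnected P ∧
      ContinuousOn f D ∧
      DifferentiableOn ℂ f (D \ P) ∧
      (∀ p ∈ P, ¬ AnalyticAt ℂ f p) ∧
      IsTotallyDisconnected (f '' P)

end Pool.Agent.W14.US
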